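import Pool.Agent.helper57.DH.SpecL

/-! Row LJB: properties of the jump functions -/

set_option autoImplicit false

open Filter Topology MeasureTheory
open scoped commutatorElement

namespace Pool.Agent.helper90.DH

open Pool.Agent.helper64.D2

/-! Cells -/

theorem LJB_mem_cell (s : ℕ) (k : ℤ) (x : ℝ) : x ∈ cell s k ↔ ci s x = k := by
  have h2 : (0 : ℝ) < 2 ^ s := by positivity
  unfold cell ci
  rw [Int.floor_eq_iff, Set.mem_Ico, div_le_iff₀ h2, lt_div_iff₀ h2, mul_comm x]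

theorem LJB_ci_div (s e : ℕ) (x : ℝ) : ci s x = ci (s + e) x / 2 ^ e := by
  unfold ci
  rw [Int.floor_eq_iff]
  have h1 := Int.floor_le ((2 : ℝ) ^ (s + e) * x)
  have h2 := Int.lt_floor_add_one ((2 : ℝ) ^ (s + e) * x)
  generalize ⌊(2 : ℝ) ^ (s + e) * x⌋ = n at h1 h2 ⊢
  have hp : (0 : ℝ) < 2 ^ e := by positivity
  have hd := Int.emod_add_mul_ediv n (2 ^ e)
  have hm0 := Int.emod_nonneg n (show (2 : ℤ) ^ e ≠ 0 by positivity)
  have hm1 := Int.emod_lt_of_pos n (show 0 < (2 : ℤ) ^ e by positivity)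
  generalize n / 2 ^ e = q at hd ⊢
  generalize n % 2 ^ e = m at hd hm0 hm1
  have hd' : (m : ℝ) + 2 ^ e * q = n := by exact_mod_cast hd
  have hm0' : (0 : ℝ) ≤ m := by exact_mod_cast hm0
  have hm1' : (m : ℝ) + 1 ≤ 2 ^ e := by exact_mod_cast hm1
  rw [pow_add] at h1 h2
  constructor
  · have : (2 : ℝ) ^ e * q ≤ 2 ^ e * (2 ^ s * x) := by nlinarith
    exact le_of_mul_le_mul_left this hp
  · have : (2 : ℝ) ^ e * (2 ^ s * x) < 2 ^ e * (q + 1) := by nlinarith
    exact lt_of_mul_lt_mul_left this hp.le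

theorem LJB_ci_grid (s : ℕ) (k : ℤ) : ci s ((k : ℝ) / 2 ^ s) = k := by
  unfold ci
  rw [mul_div_cancel₀ _ (by positivity), Int.floor_intCast]

theorem LJB_ci_pred (s : ℕ) (k : ℤ) : ci s (((k : ℝ) - 1) / 2 ^ s) = k - 1 := by
  have := LJB_ci_grid s (k - 1)
  push_cast at this
  exact this

theorem LJB_ci_half (s : ℕ) (k : ℤ) : ci s (((k : ℝ) - 1 / 2) / 2 ^ s) = k - 1 := by
  unfold ci
  rw [mul_div_cancel₀ _ (by positivity), Int.floor_eq_iff]
  push_cast
  constructor <;> linarith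

theorem LJB_ci_add (s : ℕ) (x : ℝ) : ci s (x + 1 / 2 ^ s) = ci s x + 1 := by
  unfold ci
  rw [mul_add, mul_one_div_cancel (by positivity), Int.floor_add_one]

theorem LJB_ci_sub (s : ℕ) (x : ℝ) : ci s (x - 1 / 2 ^ s) = ci s x - 1 := by
  unfold ci
  rw [mul_sub, mul_one_div_cancel (by positivity), Int.floor_sub_one]

theorem LJB_div1 (D k : ℤ) (hD : 0 < D) (h : ¬ D ∣ k) : (k - 1) / D = k / D := by
  have hd := Int.emod_add_mul_ediv k D
  have hm0 := Int.emod_nonneg k hD.ne'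
  have hm1 := Int.emod_lt_of_pos k hD
  have hne : k % D ≠ 0 := fun h0 => h (Int.dvd_of_emod_eq_zero h0)
  have h3 : 0 < k % D := lt_of_le_of_ne hm0 (Ne.symm hne)
  exact ((Int.ediv_emod_unique (a := k - 1) (b := D) (r := k % D - 1) (q := k / D) hD).2
    ⟨by linarith, by linarith, by linarith⟩).1

theorem LJB_div2 (D n : ℤ) (hD : 0 < D) : (D * n - 1) / D = n - 1 :=
  ((Int.ediv_emod_unique (a := D * n - 1) (b := D) (r := D - 1) (q := n - 1) hD).2
    ⟨by ring, by linarith, by linarith⟩).1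

/-- The left and right ends: the number of the fine cell at a grid point. -/
theorem LJB_dvd0 (s e : ℕ) (x : ℝ) (h : (2 : ℤ) ^ e ∣ ci (s + e) x) : ci (s + e) x = 2 ^ e * ci s x := by
  rw [LJB_ci_div s e x, Int.mul_ediv_cancel' h]

theorem LJB_dvd1 (s e : ℕ) (x : ℝ) (h : (2 : ℤ) ^ e ∣ ci (s + e) x + 1) : ci (s + e) x + 1 = 2 ^ e * (ci s x + 1) := by
  obtain ⟨m, hm⟩ := h
  have h1 : ci (s + e) x = 2 ^ e * m - 1 := by linarith
  have h2 : ci s x = m - 1 := by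
    rw [LJB_ci_div s e x, h1]
    exact LJB_div2 _ _ (by positivity)
  rw [h2, hm]
  ring

/-! Jumps -/

theorem LJB_jmp0 (r d : ℕ) (g : ℝ → ℝ) (hg : PA r g) (k : ℤ) (h : ¬ (2 : ℤ) ^ d ∣ k) : jmp (r + d) g k = 0 := by
  obtain ⟨a, b, hab⟩ := hg (k / 2 ^ d)
  have h1 : ((k : ℝ) / 2 ^ (r + d)) ∈ cell r (k / 2 ^ d) := by
    rw [LJB_mem_cell, LJB_ci_div r d, LJB_ci_grid]
  have h2 : (((k : ℝ) - 1 / 2) / 2 ^ (r + d)) ∈ cell r (k / 2 ^ d) := by
    rw [LJB_mem_cell, LJB_ci_div r d, LJB_ci_half, LJB_div1 _ _ (by positivity) h]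
  have h3 : (((k : ℝ) - 1) / 2 ^ (r + d)) ∈ cell r (k / 2 ^ d) := by
    rw [LJB_mem_cell, LJB_ci_div r d, LJB_ci_pred, LJB_div1 _ _ (by positivity) h]
  unfold jmp
  rw [hab _ h1, hab _ h2, hab _ h3]
  ring

theorem LJB_Bg_congr (r : ℕ) (g : ℝ → ℝ) (x y : ℝ) (h : ci r x = ci r y) : Bg r g x = Bg r g y := by
  unfold Bg mid
  rw [h]

theorem LJB_jmp1 (r d : ℕ) (g : ℝ → ℝ) (hg : PA r g) (hL : ∀ x, |g x| ≤ Bg r g x) (n : ℤ) (x y : ℝ)
    (hx : ci r x = n) (hy : ci r y = n - 1) : |jmp (r + d) g (2 ^ d * n)| ≤ Bg r g x + Bg r g y := by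
  obtain ⟨a, b, hab⟩ := hg (n - 1)
  have hR : (0 : ℝ) < 2 ^ r := by positivity
  have hD : (0 : ℝ) < 2 ^ d := by positivity
  have hDZ : (0 : ℤ) < 2 ^ d := by positivity
  have e1 : (((2 ^ d * n : ℤ) : ℝ) / 2 ^ (r + d)) = (n : ℝ) / 2 ^ r := by
    push_cast
    rw [pow_add]
    field_simp
  have h2 : ((((2 ^ d * n : ℤ) : ℝ) - 1 / 2) / 2 ^ (r + d)) ∈ cell r (n - 1) := by
    rw [LJB_mem_cell, LJB_ci_div r d, LJB_ci_half, LJB_div2 _ _ hDZ]
  have h3 : ((((2 ^ d * n : ℤ) : ℝ) - 1) / 2 ^ (r + d)) ∈ cell r (n - 1) := by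
    rw [LJB_mem_cell, LJB_ci_div r d, LJB_ci_pred, LJB_div2 _ _ hDZ]
  have h4 : ((ci r y : ℝ) / 2 ^ r) ∈ cell r (n - 1) := by
    rw [LJB_mem_cell, LJB_ci_grid, hy]
  have h5 : mid r y ∈ cell r (n - 1) := by
    unfold mid cell
    rw [hy, Set.mem_Ico]
    push_cast
    constructor
    · exact div_le_div_of_nonneg_right (by linarith) hR.le
    · exact div_lt_div_of_pos_right (by linarith) hR
  have hv : 2 * g ((((2 ^ d * n : ℤ) : ℝ) - 1 / 2) / 2 ^ (r + d)) - g ((((2 ^ d * n : ℤ) : ℝ) - 1) / 2 ^ (r + d)) =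
      2 * g (mid r y) - g ((ci r y : ℝ) / 2 ^ r) := by
    rw [hab _ h2, hab _ h3, hab _ h4, hab _ h5]
    have e2 : (((2 ^ d * n : ℤ) : ℝ) - 1 / 2) / 2 ^ (r + d) = ((2 ^ d * n : ℤ) : ℝ) / 2 ^ (r + d) - 1 / 2 / 2 ^ (r + d) := by ring
    have e3 : (((2 ^ d * n : ℤ) : ℝ) - 1) / 2 ^ (r + d) = ((2 ^ d * n : ℤ) : ℝ) / 2 ^ (r + d) - 1 / 2 ^ (r + d) := by ring
    rw [e2, e3, e1]
    unfold mid
    rw [hy]
    push_cast
    ring
  unfold jmp
  rw [hv, e1]
  have h6 : |g ((n : ℝ) / 2 ^ r)| ≤ Bg r g x := by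
    rw [LJB_Bg_congr r g x ((n : ℝ) / 2 ^ r) (by rw [LJB_ci_grid, hx])]
    exact hL _
  have h7 : |2 * g (mid r y) - g ((ci r y : ℝ) / 2 ^ r)| ≤ Bg r g y := by
    unfold Bg
    have h8 := abs_sub (2 * g (mid r y)) (g ((ci r y : ℝ) / 2 ^ r))
    rw [abs_mul, abs_of_pos (by norm_num : (0 : ℝ) < 2)] at h8
    linarith
  have h9 := abs_sub (g ((n : ℝ) / 2 ^ r)) (2 * g (mid r y) - g ((ci r y : ℝ) / 2 ^ r))
  linarith

theorem LJB_jmp_bd (s : ℕ) (g : ℝ → ℝ) (B : ℝ) (hB : ∀ x, |g x| ≤ B) (k : ℤ) : |jmp s g k| ≤ 4 * B := by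
  have h1 := abs_le.1 (hB ((k : ℝ) / 2 ^ s))
  have h2 := abs_le.1 (hB (((k : ℝ) - 1 / 2) / 2 ^ s))
  have h3 := abs_le.1 (hB (((k : ℝ) - 1) / 2 ^ s))
  unfold jmp
  rw [abs_le]
  constructor <;> linarith [h1.1, h1.2, h2.1, h2.2, h3.1, h3.2]

/-! The function `JF` -/

theorem LJB_nonneg (s e : ℕ) (g : ℝ → ℝ) (x : ℝ) : 0 ≤ JF s e g x := by
  unfold JF
  have h1 : 0 ≤ (if (2 : ℤ) ^ e ∣ ci (s + e) x then |jmp s g (ci s x)| else 0) := by
    split_ifs
    · exact abs_nonneg _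
    · exact le_refl _
  have h2 : 0 ≤ (if (2 : ℤ) ^ e ∣ ci (s + e) x + 1 then |jmp s g (ci s x + 1)| else 0) := by
    split_ifs
    · exact abs_nonneg _
    · exact le_refl _
  exact add_nonneg h1 h2

theorem LJB_PA (s e : ℕ) (g : ℝ → ℝ) : PA (s + e) (JF s e g) := by
  intro k
  refine ⟨(if (2 : ℤ) ^ e ∣ k then |jmp s g (k / 2 ^ e)| else 0) + (if (2 : ℤ) ^ e ∣ k + 1 then |jmp s g (k / 2 ^ e + 1)| else 0), 0, ?_⟩
  intro x hx
  rw [LJB_mem_cell] at hx
  unfold JF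
  rw [LJB_ci_div s e x, hx]
  ring

theorem LJB_supp (s e : ℕ) (g : ℝ → ℝ) (a b : ℝ) (hg : ∀ x, x ∉ Set.Icc a b → g x = 0) (x : ℝ)
    (hx : x + 1 / 2 ^ s < a ∨ b < x - 2 / 2 ^ s) : JF s e g x = 0 := by
  have hR : (0 : ℝ) < 2 ^ s := by positivity
  have h1 : (ci s x : ℝ) / 2 ^ s ≤ x := by
    rw [div_le_iff₀ hR, mul_comm]
    exact Int.floor_le _
  have h2 : x < (ci s x : ℝ) / 2 ^ s + 1 / 2 ^ s := by
    rw [← add_div, lt_div_iff₀ hR, mul_comm]
    exact Int.lt_floor_add_one _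
  have key : ∀ k : ℤ, (k : ℝ) / 2 ^ s ≤ x + 1 / 2 ^ s → x - 1 / 2 ^ s < (k : ℝ) / 2 ^ s → jmp s g k = 0 := by
    intro k hk1 hk2
    have hz : ∀ y, y ≤ (k : ℝ) / 2 ^ s → (k : ℝ) / 2 ^ s - 1 / 2 ^ s ≤ y → g y = 0 := by
      intro y hy1 hy2
      apply hg
      intro hy
      rcases hx with hx | hx
      · linarith [hy.1]
      · have h3 : (2 : ℝ) / 2 ^ s = 1 / 2 ^ s + 1 / 2 ^ s := by ring
        linarith [hy.2]
    have hpos : (0 : ℝ) < 1 / 2 ^ s := by positivity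
    unfold jmp
    rw [hz _ (le_refl _) (by linarith), hz (((k : ℝ) - 1 / 2) / 2 ^ s) (by rw [sub_div]; linarith [show (1 : ℝ) / 2 / 2 ^ s = 1 / 2 ^ s / 2 by ring])
      (by rw [sub_div]; linarith [show (1 : ℝ) / 2 / 2 ^ s = 1 / 2 ^ s / 2 by ring]), hz (((k : ℝ) - 1) / 2 ^ s) (by rw [sub_div]; linarith) (by rw [sub_div])]
    ring
  have hpos : (0 : ℝ) < 1 / 2 ^ s := by positivity
  unfold JF
  rw [key (ci s x) (by linarith) (by linarith), key (ci s x + 1) (by push_cast; rw [add_div]; linarith) (by push_cast; rw [add_div]; linarith)]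
  simp

theorem LJB_sum (s e : ℕ) (I : Finset ℕ) (g : ℕ → ℝ → ℝ) (x : ℝ) :
    JF s e (fun z => ∑ r ∈ I, g r z) x ≤ ∑ r ∈ I, JF s e (g r) x := by
  have hj : ∀ k : ℤ, |jmp s (fun z => ∑ r ∈ I, g r z) k| ≤ ∑ r ∈ I, |jmp s (g r) k| := by
    intro k
    have : jmp s (fun z => ∑ r ∈ I, g r z) k = ∑ r ∈ I, jmp s (g r) k := by
      unfold jmp
      rw [Finset.sum_sub_distrib, Finset.sum_sub_distrib, ← Finset.mul_sum]
    rw [this]
    exact Finset.abs_sum_le_sum_abs _ _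
  unfold JF
  rw [Finset.sum_add_distrib]
  apply add_le_add
  · by_cases h : (2 : ℤ) ^ e ∣ ci (s + e) x
    · simp only [h, if_true]
      exact hj _
    · simp only [h, if_false, Finset.sum_const_zero, le_refl]
  · by_cases h : (2 : ℤ) ^ e ∣ ci (s + e) x + 1
    · simp only [h, if_true]
      exact hj _
    · simp only [h, if_false, Finset.sum_const_zero, le_refl]

theorem LJB_cell_meas (s : ℕ) (k : ℤ) : MeasurableSet (cell s k) := measurableSet_Ico

theorem LJB_cell_vol (s : ℕ) (k : ℤ) : volume.real (cell s k) = 1 / 2 ^ s := by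
  unfold cell
  rw [Real.volume_real_Ico_of_le (div_le_div_of_nonneg_right (by linarith) (by positivity))]
  ring

theorem LJB_Gr_meas (s : ℕ) (ρ : ℝ) : MeasurableSet (Gr s ρ) := by
  have : Gr s ρ = ⋃ k : ℤ, {x : ℝ | |x - (k : ℝ) / 2 ^ s| ≤ ρ} := by
    ext x
    simp [Gr]
  rw [this]
  refine MeasurableSet.iUnion (fun k => ?_)
  exact measurableSet_le (by fun_prop) measurable_const

/-- The integral of the jump function over one cell. -/
theorem LJB_int_cell (s e : ℕ) (g : ℝ → ℝ) (B : ℝ) (hB : ∀ x, |g x| ≤ B) (hJ : Integrable (JF s e g)) (k : ℤ) :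
    ∫ t in cell s k, |JF s e g t| ≤ 8 * B / 2 ^ (s + e) := by
  have hB0 : 0 ≤ B := le_trans (abs_nonneg _) (hB 0)
  set H : ℝ → ℝ := fun t => (cell (s + e) (2 ^ e * k)).indicator (fun _ => 4 * B) t +
    (cell (s + e) (2 ^ e * (k + 1) - 1)).indicator (fun _ => 4 * B) t with hH
  have hi : ∀ l : ℤ, Integrable ((cell (s + e) l).indicator (fun _ : ℝ => 4 * B)) := by
    intro l
    rw [integrable_indicator_iff (LJB_cell_meas _ _)]
    exact integrableOn_const (by unfold cell; rw [Real.volume_Ico]; exact ENNReal.ofReal_ne_top)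
  have hHi : Integrable H := (hi _).add (hi _)
  have hH0 : ∀ t, 0 ≤ H t := by
    intro t
    exact add_nonneg (Set.indicator_nonneg (fun _ _ => by linarith) _) (Set.indicator_nonneg (fun _ _ => by linarith) _)
  have hle : ∀ t ∈ cell s k, |JF s e g t| ≤ H t := by
    intro t ht
    rw [LJB_mem_cell] at ht
    rw [abs_of_nonneg (LJB_nonneg s e g t), hH]
    unfold JF
    apply add_le_add
    · split_ifs with h
      · have h1 := LJB_dvd0 s e t h
        rw [ht] at h1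
        rw [Set.indicator_of_mem ((LJB_mem_cell _ _ _).2 h1)]
        exact LJB_jmp_bd s g B hB _
      · exact Set.indicator_nonneg (fun _ _ => by linarith) _
    · split_ifs with h
      · have h1 := LJB_dvd1 s e t h
        rw [ht] at h1
        rw [Set.indicator_of_mem ((LJB_mem_cell _ _ _).2 (by linarith))]
        exact LJB_jmp_bd s g B hB _
      · exact Set.indicator_nonneg (fun _ _ => by linarith) _
  have h1 : ∫ t in cell s k, |JF s e g t| ≤ ∫ t in cell s k, H t :=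
    setIntegral_mono_on hJ.abs.integrableOn hHi.integrableOn (LJB_cell_meas _ _) hle
  have h2 : ∫ t in cell s k, H t ≤ ∫ t, H t :=
    setIntegral_le_integral hHi (Filter.Eventually.of_forall hH0)
  have h3 : ∫ t, H t = 8 * B / 2 ^ (s + e) := by
    rw [hH]
    rw [integral_add (hi _) (hi _), integral_indicator (LJB_cell_meas _ _), integral_indicator (LJB_cell_meas _ _),
      setIntegral_const, setIntegral_const, LJB_cell_vol, LJB_cell_vol, smul_eq_mul]
    ring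
  linarith

/-- The pointwise bound for the fourth property, at a grid point. -/
theorem LJB_point (r d e : ℕ) (g : ℝ → ℝ) (hg : PA r g) (hL : ∀ x, |g x| ≤ Bg r g x) (x : ℝ)
    (hx : (2 : ℤ) ^ e ∣ ci (r + d + e) x) :
    |jmp (r + d) g (ci (r + d) x)| ^ 2 ≤ 2 * (Gr r (1 / 2 ^ (r + d + e))).indicator (fun z => Bg r g z ^ 2) x +
      2 * (Gr r (1 / 2 ^ (r + d + e))).indicator (fun z => Bg r g z ^ 2) (x - 1 / 2 ^ (r + d + e)) := by
  have hρ : (0 : ℝ) < 1 / 2 ^ (r + d + e) := by positivity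
  have hI : ∀ y, 0 ≤ (Gr r (1 / 2 ^ (r + d + e))).indicator (fun z => Bg r g z ^ 2) y :=
    fun y => Set.indicator_nonneg (fun _ _ => sq_nonneg _) _
  have h1 := LJB_dvd0 (r + d) e x hx
  by_cases hd : (2 : ℤ) ^ d ∣ ci (r + d) x
  · have h2 := LJB_dvd0 r d x hd
    set n : ℤ := ci r x with hn
    have h3 : ci (r + d + e) x = 2 ^ e * (2 ^ d * n) := by rw [h1, h2]
    have hy : ci r (x - 1 / 2 ^ (r + d + e)) = n - 1 := by
      rw [LJB_ci_div r d, LJB_ci_div (r + d) e, LJB_ci_sub, h3, LJB_div2 _ _ (by positivity), LJB_div2 _ _ (by positivity)]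
    have hxc : x ∈ cell (r + d + e) (2 ^ e * (2 ^ d * n)) := (LJB_mem_cell _ _ _).2 h3
    unfold cell at hxc
    have e1 : ((2 ^ e * (2 ^ d * n) : ℤ) : ℝ) / 2 ^ (r + d + e) = (n : ℝ) / 2 ^ r := by
      push_cast
      rw [pow_add, pow_add]
      field_simp
    rw [Set.mem_Ico, add_div, e1] at hxc
    have hG1 : x ∈ Gr r (1 / 2 ^ (r + d + e)) := by
      refine ⟨n, ?_⟩
      rw [abs_le]
      constructor <;> linarith [hxc.1, hxc.2]
    have hG2 : x - 1 / 2 ^ (r + d + e) ∈ Gr r (1 / 2 ^ (r + d + e)) := by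
      refine ⟨n, ?_⟩
      rw [abs_le]
      constructor <;> linarith [hxc.1, hxc.2]
    rw [Set.indicator_of_mem hG1, Set.indicator_of_mem hG2, h2]
    have h4 := LJB_jmp1 r d g hg hL n x (x - 1 / 2 ^ (r + d + e)) hn.symm hy
    have h5 : |jmp (r + d) g (2 ^ d * n)| ^ 2 ≤ (Bg r g x + Bg r g (x - 1 / 2 ^ (r + d + e))) ^ 2 :=
      pow_le_pow_left₀ (abs_nonneg _) h4 2
    nlinarith [sq_nonneg (Bg r g x - Bg r g (x - 1 / 2 ^ (r + d + e)))]
  · rw [LJB_jmp0 r d g hg _ hd, abs_zero]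
    have := hI x
    have := hI (x - 1 / 2 ^ (r + d + e))
    have h0 : (0 : ℝ) ^ 2 = 0 := by norm_num
    rw [h0]
    linarith

theorem LJB (hLBM : LBM_stmt) (hLEN : LEN_stmt) (hLEB : LEB_stmt) : LJB_stmt := by
  refine ⟨2304, by norm_num, ?_, ?_, ?_, ?_⟩
  · intro s e g B he hs hg hB hsu
    have hs2 : (1 : ℝ) / 2 ^ s ≤ 1 / 16 := by
      have : (2 : ℝ) ^ 4 ≤ 2 ^ s := pow_le_pow_right₀ (by norm_num) hs
      exact one_div_le_one_div_of_le (by norm_num) (by linarith)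
    have hBM : BM (JF s e g) := by
      refine hLBM.2.2.1 (s + e) _ (LJB_PA s e g) ?_
      intro x hx
      refine LJB_supp s e g (1 / 5) (4 / 5) hsu x ?_
      rw [Set.mem_Icc, not_and_or, not_le, not_le] at hx
      rcases hx with hx | hx
      · left
        linarith
      · right
        have h3 : (2 : ℝ) / 2 ^ s = 1 / 2 ^ s + 1 / 2 ^ s := by ring
        linarith
    refine ⟨hBM, LJB_PA s e g, LJB_nonneg s e g, ?_⟩
    intro x
    have hint : Integrable (JF s e g) := (hLBM.2.1 1 _ hBM).2.2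
    have h1 := hLEB.1 s (JF s e g) x hBM
    have h2 := LJB_int_cell s e g B hB hint (ci s x)
    have hB0 : 0 ≤ B := le_trans (abs_nonneg _) (hB 0)
    have h3 : 4 * 2 ^ s * ∫ t in cell s (ci s x), |JF s e g t| ≤ 4 * 2 ^ s * (8 * B / 2 ^ (s + e)) :=
      mul_le_mul_of_nonneg_left h2 (by positivity)
    have h4 : (4 : ℝ) * 2 ^ s * (8 * B / 2 ^ (s + e)) = 32 * B / 2 ^ e := by
      rw [pow_add]
      field_simp
      ring
    have h5 : 32 * B / 2 ^ e ≤ 2304 * B / 2 ^ e := div_le_div_of_nonneg_right (by linarith) (by positivity)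
    linarith
  · intro s e g hs hg x hx
    have hs2 : (1 : ℝ) / 2 ^ s ≤ 1 / 1024 := by
      have : (2 : ℝ) ^ 10 ≤ 2 ^ s := pow_le_pow_right₀ (by norm_num) hs
      exact one_div_le_one_div_of_le (by norm_num) (by linarith)
    refine LJB_supp s e g (6 / 25) (19 / 25) hg x ?_
    rw [Set.mem_Icc, not_and_or, not_le, not_le] at hx
    rcases hx with hx | hx
    · left
      linarith
    · right
      have h3 : (2 : ℝ) / 2 ^ s = 1 / 2 ^ s + 1 / 2 ^ s := by ring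
      linarith
  · intro s e I g x
    exact LJB_sum s e I g x
  · intro s r e g he hs hrs hg hBM hsu
    obtain ⟨d, hd⟩ : ∃ d, s = r + 1 + d := ⟨s - (r + 1), by omega⟩
    subst hd
    obtain ⟨hL, -, h3, -⟩ := hLEN (r + 1) g hg
    obtain ⟨hBg, -, -, hGr⟩ := h3 hBM
    set ρ : ℝ := 1 / 2 ^ (r + 1 + d + e) with hρ
    have hρ0 : 0 < ρ := by positivity
    set I : ℝ → ℝ := (Gr (r + 1) ρ).indicator (fun z => Bg (r + 1) g z ^ 2) with hI
    have hIi : Integrable I := by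
      rw [hI, integrable_indicator_iff (LJB_Gr_meas _ _)]
      have h4 : Integrable (fun z => Bg (r + 1) g z * Bg (r + 1) g z) := (hLBM.2.1 1 _ (hLBM.1 _ _ hBg hBg).2.2).2.2
      have h5 : (fun z => Bg (r + 1) g z ^ 2) = fun z => Bg (r + 1) g z * Bg (r + 1) g z := by
        funext z
        ring
      rw [h5]
      exact h4.integrableOn
    have hIv : ∫ x, I x ≤ 72 * ρ * 2 ^ (r + 1) * nsq g := hGr ρ hρ0.le
    have hI0 : ∀ y, 0 ≤ I y := fun y => Set.indicator_nonneg (fun _ _ => sq_nonneg _) _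
    have hpt : ∀ x, JF (r + 1 + d) e g x ^ 2 ≤ 4 * (I x + I (x - ρ)) + 4 * (I (x + ρ) + I x) := by
      intro x
      have hA : (if (2 : ℤ) ^ e ∣ ci (r + 1 + d + e) x then |jmp (r + 1 + d) g (ci (r + 1 + d) x)| else 0) ^ 2 ≤ 2 * I x + 2 * I (x - ρ) := by
        split_ifs with h
        · exact LJB_point (r + 1) d e g hg hL x h
        · have h6 := hI0 x
          have h7 := hI0 (x - ρ)
          have h0 : (0 : ℝ) ^ 2 = 0 := by norm_num
          rw [h0]
          linarith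
      have hC : (if (2 : ℤ) ^ e ∣ ci (r + 1 + d + e) x + 1 then |jmp (r + 1 + d) g (ci (r + 1 + d) x + 1)| else 0) ^ 2 ≤ 2 * I (x + ρ) + 2 * I x := by
        split_ifs with h
        · have h1 : ci (r + 1 + d + e) (x + ρ) = ci (r + 1 + d + e) x + 1 := LJB_ci_add _ x
          have h2 : ci (r + 1 + d) (x + ρ) = ci (r + 1 + d) x + 1 := by
            rw [LJB_ci_div (r + 1 + d) e (x + ρ), h1, LJB_dvd1 (r + 1 + d) e x h]
            exact Int.mul_ediv_cancel_left _ (by positivity)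
          have h4 := LJB_point (r + 1) d e g hg hL (x + ρ) (by rw [h1]; exact h)
          rw [h2] at h4
          have h5 : x + ρ - 1 / 2 ^ (r + 1 + d + e) = x := by rw [← hρ]; ring
          rw [h5] at h4
          exact h4
        · have h6 := hI0 x
          have h7 := hI0 (x + ρ)
          have h0 : (0 : ℝ) ^ 2 = 0 := by norm_num
          rw [h0]
          linarith
      unfold JF
      have h8 := add_sq_le (a := (if (2 : ℤ) ^ e ∣ ci (r + 1 + d + e) x then |jmp (r + 1 + d) g (ci (r + 1 + d) x)| else 0))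
        (b := (if (2 : ℤ) ^ e ∣ ci (r + 1 + d + e) x + 1 then |jmp (r + 1 + d) g (ci (r + 1 + d) x + 1)| else 0))
      linarith
    have i1 : Integrable (fun x => I (x - ρ)) := hIi.comp_sub_right ρ
    have i2 : Integrable (fun x => I (x + ρ)) := hIi.comp_add_right ρ
    have hRi : Integrable (fun x => 4 * (I x + I (x - ρ)) + 4 * (I (x + ρ) + I x)) :=
      ((hIi.add i1).const_mul 4).add ((i2.add hIi).const_mul 4)
    have hmono : nsq (JF (r + 1 + d) e g) ≤ ∫ x, (4 * (I x + I (x - ρ)) + 4 * (I (x + ρ) + I x)) := by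
      unfold nsq
      exact integral_mono_of_nonneg (Filter.Eventually.of_forall (fun x => sq_nonneg _)) hRi (Filter.Eventually.of_forall hpt)
    have hval : ∫ x, (4 * (I x + I (x - ρ)) + 4 * (I (x + ρ) + I x)) = 16 * ∫ x, I x := by
      have a1 : ∫ x, I (x - ρ) = ∫ x, I x := integral_sub_right_eq_self I ρ
      have a2 : ∫ x, I (x + ρ) = ∫ x, I x := integral_add_right_eq_self I ρ
      have b1 : Integrable (fun x => 4 * (I x + I (x - ρ))) := (hIi.add i1).const_mul 4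
      have b2 : Integrable (fun x => 4 * (I (x + ρ) + I x)) := (i2.add hIi).const_mul 4
      rw [integral_add b1 b2, integral_const_mul, integral_const_mul, integral_add hIi i1, integral_add i2 hIi, a1, a2]
      ring
    have hn0 : 0 ≤ nsq g := integral_nonneg (fun x => sq_nonneg _)
    have hfin : 16 * (72 * ρ * 2 ^ (r + 1) * nsq g) = 2304 / 2 ^ e / 2 ^ (r + 1 + d - r) * nsq g := by
      have e1 : r + 1 + d - r = 1 + d := by omega
      rw [e1, hρ, pow_add, pow_add, pow_add (2 : ℝ) 1 d]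
      field_simp
      ring
    rw [← hfin]
    linarith

end Pool.Agent.helper90.DH
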