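import Pool.Agent.helper81.DH.SpecF
import Pool.Agent.helper88.DH.LJB

/-! Row FVB: the routed functions are bounded, measurable, and have small support -/

set_option autoImplicit false

open Filter Topology MeasureTheory
open scoped commutatorElement

namespace Pool.Agent.helper90.DH

open Pool.Agent.helper64.D2

theorem FVB_add (N : ℕ) (f g : ℝ → ℝ) (hf : PA N f) (hg : PA N g) : PA N (fun x => f x + g x) := by
  intro k
  obtain ⟨a, b, h1⟩ := hf k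
  obtain ⟨c, d, h2⟩ := hg k
  refine ⟨a + c, b + d, fun x hx => ?_⟩
  show f x + g x = _
  rw [h1 x hx, h2 x hx]
  ring

theorem FVB_div (N : ℕ) (c : ℝ) (f : ℝ → ℝ) (hf : PA N f) : PA N (fun x => f x / c) := by
  intro k
  obtain ⟨a, b, h1⟩ := hf k
  refine ⟨a / c, b / c, fun x hx => ?_⟩
  show f x / c = _
  rw [h1 x hx]
  ring

theorem FVB_sum (N : ℕ) (I : Finset ℕ) (f : ℕ → ℝ → ℝ) (hf : ∀ s ∈ I, PA N (f s)) : PA N (fun x => ∑ s ∈ I, f s x) := by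
  intro k
  choose! a b hab using fun s (hs : s ∈ I) => hf s hs k
  refine ⟨∑ s ∈ I, a s, ∑ s ∈ I, b s, fun x hx => ?_⟩
  show ∑ s ∈ I, f s x = _
  rw [Finset.sum_mul, ← Finset.sum_add_distrib]
  exact Finset.sum_congr rfl (fun s hs => hab s hs x hx)

theorem FVB_term (hLEA : LEA_stmt) (s : ℕ) (w : ℤ → ℝ) (y : ℝ → ℝ) : PA (s + 1) (fun x => w (ci s x) * Ds s y x) := by
  intro k
  obtain ⟨a, b, h1⟩ := hLEA.2.1 (s + 1) y k
  obtain ⟨c, d, h2⟩ := hLEA.1 s (s + 1) _ (Nat.le_succ s) (hLEA.2.1 s y) k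
  refine ⟨w (k / 2 ^ 1) * (a - c), w (k / 2 ^ 1) * (b - d), fun x hx => ?_⟩
  show w (ci s x) * (Es (s + 1) y x - Es s y x) = _
  rw [h1 x hx, h2 x hx, LJB_ci_div s 1, (LJB_mem_cell _ _ _).1 hx]
  ring

theorem FVB (hLBM : LBM_stmt) (hLEA : LEA_stmt) (hLEB : LEB_stmt) : FVB_stmt := by
  intro q s0 N w y a b hsN hs0 hy ha hb hsu
  have hy01 : ∀ x, x ∉ Set.Icc (0 : ℝ) 1 → y x = 0 := by
    intro x hx
    refine hsu x (fun hx2 => hx ⟨by linarith [hx2.1], by linarith [hx2.2]⟩)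
  have hyB : BM y := hLBM.2.2.1 N y hy hy01
  have hE : BM (Es s0 y) := (hLBM.2.2.2.1 s0 y hyB).1
  have hPA : PA N (vf q s0 N w y) := by
    have h1 : PA N (fun x => Es s0 y x / (q : ℝ)) := FVB_div N q _ (hLEA.1 s0 N _ hsN (hLEA.2.1 s0 y))
    have h2 : PA N (fun x => ∑ s ∈ Finset.Ico s0 N, w s (ci s x) * Ds s y x) := by
      refine FVB_sum N (Finset.Ico s0 N) (fun s x => w s (ci s x) * Ds s y x) ?_
      intro s hs
      exact hLEA.1 (s + 1) N _ (by have := (Finset.mem_Ico.1 hs).2; omega) (FVB_term hLEA s (w s) y)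
    exact FVB_add N _ _ h1 h2
  have hEs : ∀ s, s0 ≤ s → ∀ x, x ∉ Set.Icc (a - 1 / 2 ^ s0) (b + 1 / 2 ^ s0) → Es s y x = 0 := by
    intro s hs x hx
    refine hLEB.2.2 s y a b hsu x (fun hx2 => hx ?_)
    have h3 : (1 : ℝ) / 2 ^ s ≤ 1 / 2 ^ s0 := one_div_le_one_div_of_le (by positivity) (pow_le_pow_right₀ (by norm_num) hs)
    exact ⟨by linarith [hx2.1], by linarith [hx2.2]⟩
  have hvz : ∀ x, x ∉ Set.Icc (a - 1 / 2 ^ s0) (b + 1 / 2 ^ s0) → vf q s0 N w y x = 0 := by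
    intro x hx
    unfold vf
    rw [hEs s0 (le_refl _) x hx, zero_div, zero_add]
    refine Finset.sum_eq_zero (fun s hs => ?_)
    have h4 := (Finset.mem_Ico.1 hs).1
    unfold Ds
    rw [hEs s h4 x hx, hEs (s + 1) (by omega) x hx]
    ring
  refine ⟨hLBM.2.2.1 N _ hPA ?_, hyB, hE, hvz⟩
  intro x hx
  refine hvz x (fun hx2 => hx ?_)
  have h5 : (1 : ℝ) / 2 ^ s0 ≤ 1 / 2 ^ 10 := one_div_le_one_div_of_le (by positivity) (pow_le_pow_right₀ (by norm_num) hs0)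
  have h6 : (1 : ℝ) / 2 ^ 10 ≤ 1 / 4 := by norm_num
  exact ⟨by linarith [hx2.1], by linarith [hx2.2]⟩

end Pool.Agent.helper90.DH
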